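import Pool.Agent.H31.DP.Targets

/-!
# Geometric sums on the minor arcs (GS)
-/

set_option autoImplicit false

open Finset Filter Topology

namespace Pool.Agent.H60.DP

open Pool.Agent.H31.DP

theorem ee_add (x y : ℝ) : ee (x + y) = ee x * ee y := by
  unfold ee
  rw [← Complex.exp_add]
  congr 1
  push_cast
  ring

theorem ee_nat_mul (n : ℕ) (x : ℝ) : ee (n * x) = ee x ^ n := by
  unfold ee
  rw [← Complex.exp_nat_mul]
  congr 1
  push_cast
  ring

theorem ee_int (z : ℤ) : ee (z : ℝ) = 1 := by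
  unfold ee
  rw [Complex.exp_eq_one_iff]
  exact ⟨z, by push_cast; ring⟩

theorem norm_ee (x : ℝ) : ‖ee x‖ = 1 := by
  unfold ee
  rw [show 2 * (Real.pi : ℂ) * Complex.I * (x : ℂ) = ((2 * Real.pi * x : ℝ) : ℂ) * Complex.I by
    push_cast; ring]
  exact Complex.norm_exp_ofReal_mul_I _

/-- the distance of `ee x` from `1` -/
theorem four_mul_le (x : ℝ) (hx : |x| ≤ 1 / 2) : 4 * |x| ≤ ‖ee x - 1‖ := by
  have h1 : ee x = Complex.exp (Complex.I * ((2 * Real.pi * x : ℝ) : ℂ)) := by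
    unfold ee
    congr 1
    push_cast
    ring
  rw [h1, Complex.norm_exp_I_mul_ofReal_sub_one]
  have h2 : 2 * Real.pi * x / 2 = Real.pi * x := by ring
  rw [h2, norm_mul, Real.norm_eq_abs, Real.norm_eq_abs, abs_of_pos (by norm_num : (0 : ℝ) < 2)]
  have h3 : |Real.pi * x| ≤ Real.pi / 2 := by
    rw [abs_mul, abs_of_pos Real.pi_pos]
    have := mul_le_mul_of_nonneg_left hx Real.pi_pos.le
    linarith
  have h4 := Real.mul_abs_le_abs_sin h3
  rw [abs_mul, abs_of_pos Real.pi_pos] at h4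
  have h5 : 2 / Real.pi * (Real.pi * |x|) = 2 * |x| := by
    field_simp
  linarith

/-- GS -/
theorem pf_GS : StatementGS := by
  intro K M Q b a θ hm ha hb hQ hK hQa
  have hbR : (0 : ℝ) < b := by exact_mod_cast hb
  have hQR : (0 : ℝ) < Q := by exact_mod_cast hQ
  have hKR : (0 : ℝ) < K := by exact_mod_cast hK
  obtain ⟨α, hα⟩ : ∃ α : ℝ, α = Q * (θ * (a / b)) := ⟨_, rfl⟩
  obtain ⟨J, hJ⟩ : ∃ J : ℕ, J = M / Q := ⟨_, rfl⟩
  -- the sum as a geometric sum
  have hsum : ∑ s ∈ mul Q M, ee (s * (θ * (a / b))) =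
      ∑ i ∈ Finset.range (2 * J + 1), ee (-(J * α)) * ee α ^ i := by
    symm
    refine Finset.sum_bij (fun i _ => (Q : ℤ) * ((i : ℤ) - J)) ?_ ?_ ?_ ?_
    · intro i hi
      rw [Finset.mem_range] at hi
      have h1 : J * Q ≤ M := by rw [hJ]; exact Nat.div_mul_le_self M Q
      have h1' : (J : ℤ) * Q ≤ M := by exact_mod_cast h1
      have h2 : (i : ℤ) - J ≤ J := by omega
      have h3 : -(J : ℤ) ≤ (i : ℤ) - J := by omega
      have hQ' : (0 : ℤ) ≤ Q := by positivity
      rw [Pool.Agent.H31.DP.mul, Finset.mem_filter, Finset.mem_Icc]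
      refine ⟨⟨?_, ?_⟩, Dvd.intro _ rfl⟩
      · have := mul_le_mul_of_nonneg_left h3 hQ'
        linarith
      · have := mul_le_mul_of_nonneg_left h2 hQ'
        linarith
    · intro i hi j hj hij
      have hQ' : (Q : ℤ) ≠ 0 := by exact_mod_cast hQ.ne'
      have := mul_left_cancel₀ hQ' hij
      omega
    · intro s hs
      rw [Pool.Agent.H31.DP.mul, Finset.mem_filter, Finset.mem_Icc] at hs
      obtain ⟨⟨h1, h2⟩, t, rfl⟩ := hs
      have hQ' : (0 : ℤ) < Q := by exact_mod_cast hQ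
      have hJ' : (J : ℤ) = (M : ℤ) / Q := by rw [hJ, Int.natCast_div]
      have h3 : t ≤ J := by
        rw [hJ']
        exact (Int.le_ediv_iff_mul_le hQ').2 (by linarith)
      have h4 : -t ≤ J := by
        rw [hJ']
        exact (Int.le_ediv_iff_mul_le hQ').2 (by linarith)
      refine ⟨(t + J).toNat, ?_, ?_⟩
      · rw [Finset.mem_range]
        omega
      · have h5 : ((t + J).toNat : ℤ) = t + J := Int.toNat_of_nonneg (by omega)
        rw [h5]
        ring
    · intro i _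
      rw [← ee_nat_mul, ← ee_add]
      congr 1
      rw [hα]
      push_cast
      ring
  rw [hsum, ← Finset.mul_sum, norm_mul, norm_ee, one_mul]
  -- the distance of `α` from the integers
  obtain ⟨z, hz⟩ : ∃ z : ℤ, |α - z| ≤ 1 / 2 := ⟨round α, abs_sub_round α⟩
  have hd : (K : ℝ) ≤ b * M * |α - z| := by
    have hq1 : 1 ≤ Q * a.natAbs := Nat.mul_pos hQ (Int.natAbs_pos.2 ha)
    have hq2 : Q * a.natAbs ≤ K := by
      have : ((Q * a.natAbs : ℕ) : ℤ) ≤ K := by
        push_cast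
        exact hQa
      exact_mod_cast this
    have h1 := hm (Q * a.natAbs) hq1 hq2 (a.sign * (b * z))
    have h2 : |((Q * a.natAbs : ℕ) : ℝ) * θ - ((a.sign * (b * z) : ℤ) : ℝ)| = b * |α - z| := by
      have h3 : (a.natAbs : ℝ) = (a.sign : ℝ) * a := by
        have h3' : (a.sign : ℝ) * a = ((|a| : ℤ) : ℝ) := by
          exact_mod_cast Int.sign_mul_self_eq_abs a
        rw [h3', Nat.cast_natAbs]
      have h4 : |(a.sign : ℝ)| = 1 := by
        rcases lt_or_gt_of_ne ha with h | h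
        · rw [Int.sign_eq_neg_one_of_neg h]
          norm_num
        · rw [Int.sign_eq_one_of_pos h]
          norm_num
      have h5 : ((Q * a.natAbs : ℕ) : ℝ) * θ - ((a.sign * (b * z) : ℤ) : ℝ) =
          (a.sign : ℝ) * (b * (α - z)) := by
        push_cast
        rw [h3, hα]
        field_simp
      rw [h5, abs_mul, h4, one_mul, abs_mul, abs_of_pos hbR]
    rw [h2] at h1
    linarith
  have hdpos : 0 < |α - z| := by
    by_contra h
    have h0 : |α - z| = 0 := le_antisymm (not_lt.1 h) (abs_nonneg _)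
    rw [h0, mul_zero] at hd
    linarith
  have h4 : 4 * |α - z| ≤ ‖ee α - 1‖ := by
    have h5 : ee α = ee (α - z) := by
      have h6 := ee_add (α - z) z
      rw [ee_int, mul_one, sub_add_cancel] at h6
      exact h6
    rw [h5]
    exact four_mul_le _ hz
  have hgeo : ‖∑ i ∈ Finset.range (2 * J + 1), ee α ^ i‖ * ‖ee α - 1‖ ≤ 2 := by
    rw [← norm_mul, geom_sum_mul]
    calc ‖ee α ^ (2 * J + 1) - 1‖ ≤ ‖ee α ^ (2 * J + 1)‖ + ‖(1 : ℂ)‖ := norm_sub_le _ _
      _ = 2 := by rw [norm_pow, norm_ee, one_pow, norm_one]; norm_num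
  rw [le_div_iff₀ hKR]
  have h6 : ‖∑ i ∈ Finset.range (2 * J + 1), ee α ^ i‖ * (4 * |α - z|) ≤ 2 :=
    (mul_le_mul_of_nonneg_left h4 (norm_nonneg _)).trans hgeo
  have h7 : ‖∑ i ∈ Finset.range (2 * J + 1), ee α ^ i‖ * K ≤
      ‖∑ i ∈ Finset.range (2 * J + 1), ee α ^ i‖ * (b * M * |α - z|) :=
    mul_le_mul_of_nonneg_left hd (norm_nonneg _)
  have h8 : ‖∑ i ∈ Finset.range (2 * J + 1), ee α ^ i‖ * (b * M * |α - z|) =
      b * M * (‖∑ i ∈ Finset.range (2 * J + 1), ee α ^ i‖ * (4 * |α - z|)) / 4 := by ring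
  have h9 : (0 : ℝ) ≤ b * M := by positivity
  have h10 := mul_le_mul_of_nonneg_left h6 h9
  linarith

end Pool.Agent.H60.DP
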