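import Pool.Agent.H31.DP.Targets
import Pool.Agent.H21.LF.Fin
import Pool.Agent.H91.LF.Kat

/-!
# Pairs in residue classes (PR)
-/

set_option autoImplicit false

open Finset Filter Topology

namespace Pool.Agent.H60.DP

open Pool.Agent.H31.DP

/-- the sum of the reciprocals of the primes diverges -/
theorem exists_large_P (C : ℝ) : ∃ P : ℕ, 2 ≤ P ∧
    C < ∑ p ∈ (Finset.Icc 1 P).filter Nat.Prime, (1 / (p : ℝ)) := by
  by_contra hcon
  push Not at hcon
  apply not_summable_one_div_on_primes
  refine summable_of_sum_range_le (c := C) (fun n => ?_) (fun n => ?_)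
  · exact Set.indicator_nonneg (fun _ _ => by positivity) _
  · refine le_trans ?_ (hcon (n + 2) (by omega))
    have h1 : ∑ i ∈ Finset.range n, Set.indicator {p : ℕ | p.Prime} (fun n : ℕ => (1 : ℝ) / n) i =
        ∑ i ∈ (Finset.range n).filter Nat.Prime, (1 / (i : ℝ)) := by
      rw [Finset.sum_filter]
      exact Finset.sum_congr rfl fun i _ => by
        simp only [Set.indicator_apply, Set.mem_setOf_eq]
    rw [h1]
    refine Finset.sum_le_sum_of_subset_of_nonneg ?_ fun _ _ _ => by positivity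
    intro i hi
    rw [Finset.mem_filter, Finset.mem_range] at hi
    rw [Finset.mem_filter, Finset.mem_Icc]
    exact ⟨⟨hi.2.one_lt.le, by omega⟩, hi.2⟩

/-- PR -/
theorem pf_PR : StatementPR := by
  classical
  intro r β δ q n₀ ρ hP hq hρ
  obtain ⟨h1, hinj, hcard⟩ := hP
  obtain ⟨j, hj⟩ : ∃ j, Odd (δ j) := by
    have h2 : (Finset.univ.filter (fun i => Odd (δ i))).Nonempty := by
      rw [← Finset.card_pos]
      omega
    obtain ⟨j, hj⟩ := h2
    exact ⟨j, (Finset.mem_filter.1 hj).2⟩
  have hle : (Finset.univ.filter (fun i => Odd (δ i))).card ≤ 2 := by omega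
  have hind : (Fin.cons 1 (Fin.cons (β j : ℚ) (fun l : Fin 0 => ((Fin.elim0 l : ℤ) : ℚ))) :
      Fin (0 + 2) → ℚ) ∉
      Submodule.span ℚ {z | ∃ i, i ≠ j ∧ Odd (δ i) ∧
        z = (Fin.cons 1 (Fin.cons (β i : ℚ) (fun l : Fin 0 => ((Fin.elim0 l : ℤ) : ℚ))) :
          Fin (0 + 2) → ℚ)} := by
    intro hmem
    by_cases h2 : ∃ i, i ≠ j ∧ Odd (δ i)
    · obtain ⟨i, hij, hi⟩ := h2
      have h3 : {z | ∃ i, i ≠ j ∧ Odd (δ i) ∧
          z = (Fin.cons 1 (Fin.cons (β i : ℚ) (fun l : Fin 0 => ((Fin.elim0 l : ℤ) : ℚ))) :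
            Fin (0 + 2) → ℚ)} ⊆
          {(Fin.cons 1 (Fin.cons (β i : ℚ) (fun l : Fin 0 => ((Fin.elim0 l : ℤ) : ℚ))) :
            Fin (0 + 2) → ℚ)} := by
        rintro z ⟨i', hi'j, hi', rfl⟩
        have h4 : i' = i := by
          by_contra hne
          have h5 : ({i', i, j} : Finset (Fin r)) ⊆
              Finset.univ.filter (fun i => Odd (δ i)) := by
            intro k hk
            rw [Finset.mem_insert, Finset.mem_insert, Finset.mem_singleton] at hk
            rw [Finset.mem_filter]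
            rcases hk with rfl | rfl | rfl
            · exact ⟨Finset.mem_univ _, hi'⟩
            · exact ⟨Finset.mem_univ _, hi⟩
            · exact ⟨Finset.mem_univ _, hj⟩
          have h6 := Finset.card_le_card h5
          rw [Finset.card_insert_of_notMem, Finset.card_insert_of_notMem,
            Finset.card_singleton] at h6
          · omega
          · rw [Finset.mem_singleton]
            exact hij
          · rw [Finset.mem_insert, Finset.mem_singleton, not_or]
            exact ⟨hne, hi'j⟩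
        rw [h4]
        exact Set.mem_singleton _
      have h4 := Submodule.span_mono h3 hmem
      rw [Submodule.mem_span_singleton] at h4
      obtain ⟨c, hc⟩ := h4
      have h5 := congrFun hc 0
      have h6 := congrFun hc 1
      simp only [Pi.smul_apply, Fin.cons_zero, smul_eq_mul, mul_one] at h5
      have h7 : c * (β i : ℚ) = (β j : ℚ) := h6
      rw [h5, one_mul] at h7
      exact hij (hinj (by exact_mod_cast h7))
    · have h3 : {z | ∃ i, i ≠ j ∧ Odd (δ i) ∧
          z = (Fin.cons 1 (Fin.cons (β i : ℚ) (fun l : Fin 0 => ((Fin.elim0 l : ℤ) : ℚ))) :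
            Fin (0 + 2) → ℚ)} ⊆ ∅ := by
        rintro z ⟨i, hij, hi, -⟩
        exact h2 ⟨i, hij, hi⟩
      have h4 := Submodule.span_mono h3 hmem
      rw [Submodule.span_empty, Submodule.mem_bot] at h4
      have h5 := congrFun h4 0
      simp only [Fin.cons_zero, Pi.zero_apply] at h5
      exact one_ne_zero h5
  obtain ⟨C, hC⟩ := Pool.Agent.H21.LF.fin_main Pool.Agent.H91.LF.kat_main 0 r β
    (fun _ l => Fin.elim0 l) (fun _ => 0) δ q n₀ j h1 hj hq hind ρ hρ
  obtain ⟨P, hP2, hPC⟩ := exists_large_P C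
  obtain ⟨T, hT⟩ := hC P
  obtain ⟨K, hK⟩ := hT T le_rfl
  refine ⟨K, fun x y hx hxy => ?_⟩
  have hfin := hK x y hx hxy
  by_contra hcon
  push Not at hcon
  have hpred : ∀ p : ℕ, ρ * Real.log T ^ 0 * Real.log (y / x) <
      ∑ t ∈ Fintype.piFinset (fun _ : Fin 0 => Finset.Icc 1 T),
        (∏ l, (1 : ℝ) / t l) * ∑ N ∈ Finset.Icc x y, (1 / (N : ℝ)) *
          |(∑ n ∈ (Finset.Icc 1 N).filter (fun n : ℕ => n ≡ n₀ [MOD q]),
            ∏ i, ((ArithmeticFunction.moebius
              (((n : ℤ) + (β i + ∑ l : Fin 0, (Fin.elim0 l : ℤ) * (t l : ℤ) +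
                0 * (p : ℤ))).toNat) : ℤ) : ℝ) ^ δ i) / N| := by
    intro p
    have h2 : Fintype.piFinset (fun _ : Fin 0 => Finset.Icc 1 T) = {Fin.elim0} := by
      ext t
      simp only [Fintype.mem_piFinset, Finset.mem_singleton]
      exact ⟨fun _ => Subsingleton.elim _ _, fun _ i => i.elim0⟩
    rw [h2, Finset.sum_singleton]
    simp only [Finset.univ_eq_empty, Finset.prod_empty, Finset.sum_empty, one_mul, pow_zero,
      mul_one, zero_mul, add_zero]
    exact hcon
  rw [Finset.filter_true_of_mem (fun p _ => hpred p)] at hfin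
  linarith

end Pool.Agent.H60.DP
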